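import Pool.Agent.Helper80.CB.Stmts

/-!
# A_RREF: every root vector gives a reflection in the Weyl group
-/

namespace Pool.Agent.Helper85.CB.RREF

open Matrix Pool.Agent.Helper80.CB

section deriv

variable {𝔸 : Type*} [NormedRing 𝔸] [NormedAlgebra ℝ 𝔸] [CompleteSpace 𝔸]

theorem exp_inv (Q : 𝔸) : NormedSpace.exp Q * NormedSpace.exp (-Q) = 1 := by
  let _ : NormedAlgebra ℚ 𝔸 := NormedAlgebra.restrictScalars ℚ ℝ 𝔸
  rw [← NormedSpace.exp_add_of_commute (Commute.refl Q).neg_right, add_neg_cancel,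
    NormedSpace.exp_zero]

/-- the rotation computation in a Banach algebra -/
theorem rotA (P H K : 𝔸) (a ω : ℝ) (hωpos : 0 < ω) (hω2 : ω * ω = 2 * a)
    (h1' : P * H - H * P = -(a • K)) (h2' : P * K - K * P = (2 : ℝ) • H) :
    NormedSpace.exp ((Real.pi / ω) • P) * H * NormedSpace.exp ((Real.pi / ω) • (-P)) = -H := by
  let Ψ : ℝ → 𝔸 := fun θ => Real.cos (ω * θ) • H - ((a / ω) * Real.sin (ω * θ)) • K
  let Φ : ℝ → 𝔸 := fun θ =>
    NormedSpace.exp (θ • (-P)) * Ψ θ * NormedSpace.exp (θ • P)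
  have hΨ : ∀ θ, HasDerivAt Ψ ((-(ω * Real.sin (ω * θ))) • H - (a * Real.cos (ω * θ)) • K) θ := by
    intro θ
    have hlin : HasDerivAt (fun θ : ℝ => ω * θ) ω θ := by
      simpa using (hasDerivAt_id θ).const_mul ω
    have hc : HasDerivAt (fun θ : ℝ => Real.cos (ω * θ)) (-(ω * Real.sin (ω * θ))) θ := by
      have := hlin.cos
      convert this using 1
      ring
    have hs : HasDerivAt (fun θ : ℝ => (a / ω) * Real.sin (ω * θ)) (a * Real.cos (ω * θ)) θ := by
      have := (hlin.sin).const_mul (a / ω)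
      have e : a / ω * (Real.cos (ω * θ) * ω) = a * Real.cos (ω * θ) := by
        rw [div_mul_eq_mul_div, div_eq_iff hωpos.ne']; ring
      rwa [e] at this
    exact (hc.smul_const H).sub (hs.smul_const K)
  have hcomm : ∀ θ, P * Ψ θ - Ψ θ * P
      = (-(ω * Real.sin (ω * θ))) • H - (a * Real.cos (ω * θ)) • K := by
    intro θ
    have e1 : P * Ψ θ - Ψ θ * P = Real.cos (ω * θ) • (P * H - H * P)
        - ((a / ω) * Real.sin (ω * θ)) • (P * K - K * P) := by
      simp only [Ψ, mul_sub, sub_mul, mul_smul_comm, smul_mul_assoc, smul_sub]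
      abel
    rw [e1, h1', h2', smul_smul]
    have e2 : a / ω * Real.sin (ω * θ) * 2 = ω * Real.sin (ω * θ) := by
      have e3 : a / ω * 2 = ω := by
        rw [div_mul_eq_mul_div, div_eq_iff hωpos.ne']; linarith
      calc a / ω * Real.sin (ω * θ) * 2 = (a / ω * 2) * Real.sin (ω * θ) := by ring
        _ = _ := by rw [e3]
    rw [e2, smul_neg, smul_smul, neg_smul, mul_comm (Real.cos (ω * θ)) a]
    abel
  have hΦ : ∀ θ, HasDerivAt Φ 0 θ := by
    intro θ
    have hu := hasDerivAt_exp_smul_const (𝕂 := ℝ) (-P) θ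
    have hw := hasDerivAt_exp_smul_const' (𝕂 := ℝ) P θ
    have h := (hu.mul (hΨ θ)).mul hw
    have e : (NormedSpace.exp (θ • -P) * -P * Ψ θ + NormedSpace.exp (θ • -P) *
        ((-(ω * Real.sin (ω * θ))) • H - (a * Real.cos (ω * θ)) • K)) * NormedSpace.exp (θ • P)
        + (NormedSpace.exp (θ • -P) * Ψ θ) * (P * NormedSpace.exp (θ • P)) = 0 := by
      rw [← hcomm θ]
      noncomm_ring
    have h' : HasDerivAt Φ ((NormedSpace.exp (θ • -P) * -P * Ψ θ + NormedSpace.exp (θ • -P) *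
        ((-(ω * Real.sin (ω * θ))) • H - (a * Real.cos (ω * θ)) • K)) * NormedSpace.exp (θ • P)
        + (NormedSpace.exp (θ • -P) * Ψ θ) * (P * NormedSpace.exp (θ • P))) θ := h
    rwa [e] at h'
  have hconst : Φ (Real.pi / ω) = Φ 0 :=
    is_const_of_deriv_eq_zero (fun θ => (hΦ θ).differentiableAt) (fun θ => (hΦ θ).deriv) _ _
  have h0 : Φ 0 = H := by
    simp [Φ, Ψ]
  have hpi : Φ (Real.pi / ω) = NormedSpace.exp ((Real.pi / ω) • (-P)) * (-H)
      * NormedSpace.exp ((Real.pi / ω) • P) := by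
    have e3 : ω * (Real.pi / ω) = Real.pi := by field_simp
    simp [Φ, Ψ, e3]
  have hinv1 : NormedSpace.exp ((Real.pi / ω) • P) * NormedSpace.exp ((Real.pi / ω) • (-P)) = 1 := by
    rw [smul_neg]; exact exp_inv _
  have hkey : NormedSpace.exp ((Real.pi / ω) • (-P)) * (-H)
      * NormedSpace.exp ((Real.pi / ω) • P) = H := by
    rw [← hpi, hconst, h0]
  have h5 : NormedSpace.exp ((Real.pi / ω) • P) *
      (NormedSpace.exp ((Real.pi / ω) • (-P)) * (-H) * NormedSpace.exp ((Real.pi / ω) • P)) *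
      NormedSpace.exp ((Real.pi / ω) • (-P)) = -H := by
    calc _ = (NormedSpace.exp ((Real.pi / ω) • P) * NormedSpace.exp ((Real.pi / ω) • (-P))) * (-H) *
          (NormedSpace.exp ((Real.pi / ω) • P) * NormedSpace.exp ((Real.pi / ω) • (-P))) := by
          simp only [mul_assoc]
      _ = -H := by rw [hinv1, one_mul, mul_one]
  rw [hkey] at h5
  exact h5

theorem rotM {n : ℕ} (P H K : Mat n) (a ω : ℝ) (hωpos : 0 < ω) (hω2 : ω * ω = 2 * a)
    (h1' : P * H - H * P = -(a • K)) (h2' : P * K - K * P = (2 : ℝ) • H) :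
    NormedSpace.exp ((Real.pi / ω) • P) * H * NormedSpace.exp ((Real.pi / ω) • (-P)) = -H := by
  let _ : NormedRing (Mat n) := Matrix.linftyOpNormedRing
  let _ : NormedAlgebra ℝ (Mat n) := Matrix.linftyOpNormedAlgebra
  exact rotA P H K a ω hωpos hω2 h1' h2'

/-- the rotation computation -/
theorem rot {n : ℕ} (Y H K : Mat n) (a : ℝ) (ha : 0 < a)
    (h1 : Complex.I • (Y * H - H * Y) = -((a : ℂ) • K))
    (h2 : Complex.I • (Y * K - K * Y) = (2 : ℂ) • H) :
    NormedSpace.exp ((Real.pi / Real.sqrt (2 * a)) • (Complex.I • Y)) * H *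
      NormedSpace.exp ((Real.pi / Real.sqrt (2 * a)) • (-(Complex.I • Y))) = -H := by
  refine rotM (Complex.I • Y) H K a _ (Real.sqrt_pos.2 (by linarith))
    (Real.mul_self_sqrt (by linarith)) ?_ ?_
  · rw [smul_mul_assoc, mul_smul_comm, ← smul_sub, h1]
    rfl
  · rw [smul_mul_assoc, mul_smul_comm, ← smul_sub, h2]
    ext i j
    simp

end deriv

section

variable {n : ℕ} {D : Cpt n} {t : Submodule ℝ (Mat n)} {E : Mat n} {α : t →ₗ[ℝ] ℝ}

theorem eigH (ht : Torus D t) (hE : RootVec D t E α) (x : t) :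
    (x : Mat n) * Eᴴ - Eᴴ * (x : Mat n) = -(((α x : ℝ) : ℂ) • Eᴴ) := by
  have hx := D.herm x (ht.le x.2)
  have h := congrArg Matrix.conjTranspose (hE.eig x)
  rw [conjTranspose_sub, conjTranspose_mul, conjTranspose_mul, hx, conjTranspose_smul] at h
  have h2 : star ((α x : ℝ) : ℂ) = ((α x : ℝ) : ℂ) := Complex.conj_ofReal _
  rw [h2] at h
  rw [← h, neg_sub]

theorem commH (ht : Torus D t) (hE : RootVec D t E α) (x : t) :
    (x : Mat n) * (E * Eᴴ - Eᴴ * E) = (E * Eᴴ - Eᴴ * E) * (x : Mat n) := by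
  have h1 : (x : Mat n) * E = E * (x : Mat n) + ((α x : ℝ) : ℂ) • E := by
    rw [← hE.eig x]; abel
  have h2 : (x : Mat n) * Eᴴ = Eᴴ * (x : Mat n) - ((α x : ℝ) : ℂ) • Eᴴ := by
    rw [sub_eq_add_neg, ← eigH ht hE x]; abel
  calc (x : Mat n) * (E * Eᴴ - Eᴴ * E)
      = ((x : Mat n) * E) * Eᴴ - ((x : Mat n) * Eᴴ) * E := by noncomm_ring
    _ = (E * (x : Mat n) + ((α x : ℝ) : ℂ) • E) * Eᴴ
        - (Eᴴ * (x : Mat n) - ((α x : ℝ) : ℂ) • Eᴴ) * E := by rw [h1, h2]
    _ = E * ((x : Mat n) * Eᴴ) - Eᴴ * ((x : Mat n) * E)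
        + ((α x : ℝ) : ℂ) • (E * Eᴴ) + ((α x : ℝ) : ℂ) • (Eᴴ * E) := by
        simp only [add_mul, sub_mul, smul_mul_assoc, mul_assoc]; abel
    _ = E * (Eᴴ * (x : Mat n) - ((α x : ℝ) : ℂ) • Eᴴ)
        - Eᴴ * (E * (x : Mat n) + ((α x : ℝ) : ℂ) • E)
        + ((α x : ℝ) : ℂ) • (E * Eᴴ) + ((α x : ℝ) : ℂ) • (Eᴴ * E) := by rw [h1, h2]
    _ = (E * Eᴴ - Eᴴ * E) * (x : Mat n) := by
        simp only [mul_add, mul_sub, sub_mul, mul_smul_comm, mul_assoc]; abel

theorem trace_pos {F : Mat n} (hF : F ≠ 0) : 0 < (Matrix.trace (F * Fᴴ)).re := by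
  have h1 : Matrix.trace (F * Fᴴ) = ((∑ i, ∑ j, ‖F i j‖ ^ 2 : ℝ) : ℂ) := by
    simp only [Matrix.trace, Matrix.diag, Matrix.mul_apply, Matrix.conjTranspose_apply,
      Complex.ofReal_sum]
    refine Finset.sum_congr rfl fun i _ => Finset.sum_congr rfl fun j _ => ?_
    have := Complex.mul_conj' (F i j)
    push_cast
    exact this
  rw [h1, Complex.ofReal_re]
  by_contra h
  apply hF
  have h2 : ∑ i, ∑ j, ‖F i j‖ ^ 2 = 0 :=
    le_antisymm (not_lt.1 h) (Finset.sum_nonneg fun i _ => Finset.sum_nonneg fun j _ => by positivity)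
  ext i j
  have h3 := (Finset.sum_eq_zero_iff_of_nonneg
    (fun i _ => Finset.sum_nonneg fun j _ => by positivity)).1 h2 i (Finset.mem_univ i)
  have h4 := (Finset.sum_eq_zero_iff_of_nonneg (fun j _ => by positivity)).1 h3 j (Finset.mem_univ j)
  simpa using h4

/-- the coroot `H = E E* - E* E` is a nonzero element of the torus, with `α(H) > 0` -/
theorem coroot (ht : Torus D t) (hE : RootVec D t E α) :
    ∃ H : t, (H : Mat n) = E * Eᴴ - Eᴴ * E ∧ 0 < α H := by
  obtain ⟨A, hA, B, hB, hAB⟩ := hE.mem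
  have hAh := D.herm A hA
  have hBh := D.herm B hB
  have hEH : Eᴴ = A - Complex.I • B := by
    rw [hAB, conjTranspose_add, conjTranspose_smul, hAh, hBh]
    have : star Complex.I = -Complex.I := Complex.conj_I
    rw [this, neg_smul, sub_eq_add_neg]
  have hmem : E * Eᴴ - Eᴴ * E ∈ D.h := by
    have h1 : E * Eᴴ - Eᴴ * E = (-2 : ℝ) • (Complex.I • (A * B - B * A)) := by
      rw [hEH, hAB]
      simp only [mul_sub, sub_mul, mul_add, add_mul, smul_mul_assoc, mul_smul_comm, smul_sub]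
      have h2 : ∀ Z : Mat n, (-2 : ℝ) • (Complex.I • Z) = -(Complex.I • Z) - Complex.I • Z := by
        intro Z
        rw [neg_smul, two_smul]; abel
      have h3 : ∀ Z : Mat n, Complex.I • Complex.I • Z = -Z := by
        intro Z
        rw [smul_smul, Complex.I_mul_I, neg_one_smul]
      rw [h2, h2]
      simp only [smul_add, smul_sub, h3]
      abel
    rw [h1]
    exact D.h.smul_mem _ (D.brk A hA B hB)
  have hHt : E * Eᴴ - Eᴴ * E ∈ t := ht.max _ hmem fun x hx => (commH ht hE ⟨x, hx⟩).symm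
  refine ⟨⟨_, hHt⟩, rfl, ?_⟩
  set H : t := ⟨E * Eᴴ - Eᴴ * E, hHt⟩ with hH
  have hHv : (H : Mat n) = E * Eᴴ - Eᴴ * E := rfl
  -- trace identities
  have htr : ∀ x : t, Matrix.trace ((x : Mat n) * (H : Mat n))
      = ((α x : ℝ) : ℂ) * Matrix.trace (E * Eᴴ) := by
    intro x
    have h1 : Matrix.trace (((x : Mat n) * E - E * (x : Mat n)) * Eᴴ)
        = ((α x : ℝ) : ℂ) * Matrix.trace (E * Eᴴ) := by
      rw [hE.eig x, smul_mul_assoc, Matrix.trace_smul, smul_eq_mul]
    rw [← h1, hHv]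
    have h2 : Matrix.trace ((x : Mat n) * (Eᴴ * E)) = Matrix.trace (E * (x : Mat n) * Eᴴ) := by
      rw [Matrix.trace_mul_comm, Matrix.trace_mul_comm (E * (x : Mat n)) Eᴴ, ← mul_assoc]
    rw [mul_sub, Matrix.trace_sub, h2, sub_mul, Matrix.trace_sub, mul_assoc (x : Mat n) E]
  have hEpos := trace_pos hE.ne
  have hEim : Matrix.trace (E * Eᴴ) = ((Matrix.trace (E * Eᴴ)).re : ℂ) := by
    have h3 : star (Matrix.trace (E * Eᴴ)) = Matrix.trace (E * Eᴴ) := by
      rw [← Matrix.trace_conjTranspose, conjTranspose_mul, conjTranspose_conjTranspose]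
    exact (Complex.conj_eq_iff_real.1 h3).elim fun r hr => by rw [hr]; simp
  have hHne : (H : Mat n) ≠ 0 := by
    intro h0
    have : ∃ x, α x ≠ 0 := by
      by_contra hcon
      push Not at hcon
      exact hE.root (LinearMap.ext hcon)
    obtain ⟨x, hx⟩ := this
    have h4 := htr x
    rw [h0, mul_zero, Matrix.trace_zero, hEim] at h4
    have h5 : (α x) * (Matrix.trace (E * Eᴴ)).re = 0 := by exact_mod_cast h4.symm
    rcases mul_eq_zero.1 h5 with h | h
    · exact hx h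
    · exact hEpos.ne' h
  have hHpos := trace_pos hHne
  have hHh : (H : Mat n)ᴴ = (H : Mat n) := D.herm _ (ht.le H.2)
  rw [hHh, htr H, hEim] at hHpos
  have h6 : 0 < α H * (Matrix.trace (E * Eᴴ)).re := by
    have : (((α H : ℝ) : ℂ) * ((Matrix.trace (E * Eᴴ)).re : ℂ)).re
        = α H * (Matrix.trace (E * Eᴴ)).re := by
      rw [← Complex.ofReal_mul, Complex.ofReal_re]
    rwa [this] at hHpos
  exact (pos_iff_pos_of_mul_pos h6).2 hEpos

end

end Pool.Agent.Helper85.CB.RREF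

namespace Pool.Agent.Helper85.CB

open Matrix Pool.Agent.Helper80.CB

theorem st_RREF : ST_RREF := by
  intro n D t ht E α hE
  obtain ⟨H, hH, ha⟩ := RREF.coroot ht hE
  set a : ℝ := α H with hadef
  obtain ⟨A, hA, B, hB, hAB⟩ := hE.mem
  have hAh := D.herm A hA
  have hBh := D.herm B hB
  have hEH : Eᴴ = A - Complex.I • B := by
    rw [hAB, conjTranspose_add, conjTranspose_smul, hAh, hBh]
    have : star Complex.I = -Complex.I := Complex.conj_I
    rw [this, neg_smul, sub_eq_add_neg]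
  set v : t := (2 / a) • H with hv
  have hαv : α v = 2 := by
    rw [hv, map_smul, smul_eq_mul, ← hadef]
    field_simp
  set Y : Mat n := E + Eᴴ with hY
  set K : Mat n := Complex.I • (E - Eᴴ) with hK
  have hYh : Y ∈ D.h := by
    have : Y = (2 : ℝ) • A := by
      rw [hY, hEH, hAB, two_smul]; abel
    rw [this]
    exact D.h.smul_mem _ hA
  have hHE : (H : Mat n) * E - E * (H : Mat n) = (a : ℂ) • E := hE.eig H
  have hHE' : (H : Mat n) * Eᴴ - Eᴴ * (H : Mat n) = -((a : ℂ) • Eᴴ) := RREF.eigH ht hE H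
  have h1 : Complex.I • (Y * (H : Mat n) - (H : Mat n) * Y) = -((a : ℂ) • K) := by
    have e : Y * (H : Mat n) - (H : Mat n) * Y = -((a : ℂ) • (E - Eᴴ)) := by
      calc Y * (H : Mat n) - (H : Mat n) * Y
          = -((H : Mat n) * E - E * (H : Mat n)) - ((H : Mat n) * Eᴴ - Eᴴ * (H : Mat n)) := by
            rw [hY]; noncomm_ring
        _ = _ := by rw [hHE, hHE', smul_sub]; abel
    rw [e, hK, smul_neg, smul_comm]
  have h2 : Complex.I • (Y * K - K * Y) = (2 : ℂ) • (H : Mat n) := by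
    have e : Y * (E - Eᴴ) - (E - Eᴴ) * Y = -((2 : ℂ) • (E * Eᴴ - Eᴴ * E)) := by
      rw [hY, two_smul]; noncomm_ring
    rw [hK, mul_smul_comm, smul_mul_assoc, ← smul_sub, smul_smul, Complex.I_mul_I, e, hH]
    simp
  have hrot := RREF.rot Y (H : Mat n) K a ha h1 h2
  set θ : ℝ := Real.pi / Real.sqrt (2 * a) with hθ
  have hgS : NormedSpace.exp (Complex.I • (θ • Y)) ∈ D.S := D.exp_mem _ (D.h.smul_mem _ hYh)
  have hge : θ • (Complex.I • Y) = Complex.I • (θ • Y) := smul_comm _ _ _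
  set g : Mat n := NormedSpace.exp (Complex.I • (θ • Y)) with hg
  have hgH : gᴴ = NormedSpace.exp (θ • (-(Complex.I • Y))) := by
    rw [hg, ← Matrix.exp_conjTranspose]
    congr 1
    have hYH : Yᴴ = Y := D.herm _ hYh
    rw [conjTranspose_smul, conjTranspose_smul, hYH]
    have : star Complex.I = -Complex.I := Complex.conj_I
    rw [this, neg_smul, smul_neg, smul_comm, star_trivial]
  have hggH : g * gᴴ = 1 := mul_eq_one_comm.1 (D.unit g hgS)
  rw [hge, ← hgH, ← hg] at hrot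
  have hconj : ∀ x : t, g * (x : Mat n) * gᴴ = ((x - α x • v : t) : Mat n) := by
    intro x
    set x0 : t := x - (α x / 2) • v with hx0
    have hα0 : α x0 = 0 := by
      rw [hx0, map_sub, map_smul, hαv, smul_eq_mul]; ring
    have hc1 : (x0 : Mat n) * E = E * (x0 : Mat n) := by
      have := hE.eig x0
      rw [hα0] at this
      simpa [sub_eq_zero] using this
    have hc2 : (x0 : Mat n) * Eᴴ = Eᴴ * (x0 : Mat n) := by
      have := RREF.eigH ht hE x0
      rw [hα0] at this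
      simpa [sub_eq_zero] using this
    have hcY : Commute (x0 : Mat n) Y := by
      change (x0 : Mat n) * Y = Y * (x0 : Mat n)
      rw [hY, mul_add, add_mul, hc1, hc2]
    have hcg : Commute (x0 : Mat n) g := by
      rw [hg]
      exact ((hcY.smul_right θ).smul_right Complex.I).exp_right
    have hx : x = x0 + (α x / 2) • v := by rw [hx0]; abel
    have hvg : g * (v : Mat n) * gᴴ = -(v : Mat n) := by
      rw [hv]
      change g * ((2 / a) • (H : Mat n)) * gᴴ = -((2 / a) • (H : Mat n))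
      rw [mul_smul_comm, smul_mul_assoc, hrot, smul_neg]
    have hsub : ((x - α x • v : t) : Mat n) = (x0 : Mat n) + (α x / 2) • (-(v : Mat n)) := by
      have : x - α x • v = x0 - (α x / 2) • v := by
        rw [hx0]
        have : α x • v = (α x / 2) • v + (α x / 2) • v := by
          rw [← add_smul]; congr 1; ring
        rw [this]; abel
      rw [this]
      simp [sub_eq_add_neg]
    rw [hsub]
    conv_lhs => rw [hx]
    change g * ((x0 : Mat n) + (α x / 2) • (v : Mat n)) * gᴴ = _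
    rw [mul_add, add_mul, ← hcg.eq, mul_assoc, hggH, mul_one, mul_smul_comm, smul_mul_assoc, hvg]
  refine ⟨Module.reflection hαv, ⟨g, hgS, fun x => ?_⟩, v, hE, ⟨2 / a, by positivity, ?_⟩, hαv, ?_⟩
  · rw [hconj x, Module.reflection_apply]
  · rw [← hH, hv]
    ext i j
    simp
  · intro x
    rw [Module.reflection_apply]

end Pool.Agent.Helper85.CB
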