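import Pool.Agent.Helper83.CB.Defs2

/-!
# (2.2) Lipschitz retraction onto the isometric embeddings
-/

open Filter Topology

namespace Pool.Agent.Helper83.CB

namespace RETR

theorem N_zero {m : ℕ} {N : E m → ℝ} (hN : IsNorm N) : N 0 = 0 := by
  have h := hN.smul 0 0
  simpa using h

theorem N_neg {m : ℕ} {N : E m → ℝ} (hN : IsNorm N) (x : E m) : N (-x) = N x := by
  have h := hN.smul (-1) x
  simpa using h

theorem N_sub_le {m : ℕ} {N : E m → ℝ} (hN : IsNorm N) (x y : E m) :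
    |N x - N y| ≤ N (x - y) := by
  rw [abs_le]
  constructor
  · have h := hN.add (y - x) x
    rw [sub_add_cancel] at h
    have h2 : N (y - x) = N (x - y) := by
      rw [← N_neg hN (x - y), neg_sub]
    linarith
  · have h := hN.add (x - y) y
    rw [sub_add_cancel] at h
    linarith

theorem N_sum {m : ℕ} {N : E m → ℝ} (hN : IsNorm N) {ι : Type} (s : Finset ι) (v : ι → E m) :
    N (∑ i ∈ s, v i) ≤ ∑ i ∈ s, N (v i) := by
  classical
  induction s using Finset.induction_on with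
  | empty => simp [N_zero hN]
  | insert a s ha ih =>
    rw [Finset.sum_insert ha, Finset.sum_insert ha]
    exact (hN.add _ _).trans (by linarith)

theorem N_nonneg {m : ℕ} {N : E m → ℝ} (hN : IsNorm N) (x : E m) : 0 ≤ N x := by
  by_cases h : x = 0
  · rw [h, N_zero hN]
  · exact (hN.pos x h).le

theorem N_le {m : ℕ} {N : E m → ℝ} (hN : IsNorm N) : ∃ C : ℝ, 0 < C ∧ ∀ x, N x ≤ C * ‖x‖ := by
  classical
  let b := EuclideanSpace.basisFun (Fin m) ℂ
  refine ⟨∑ i, N (b i) + 1, by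
    have : 0 ≤ ∑ i, N (b i) := Finset.sum_nonneg fun i _ => N_nonneg hN _
    linarith, fun x => ?_⟩
  have h1 : x = ∑ i, (x i) • b i := by
    have := b.sum_repr x
    simpa [b] using this.symm
  have h2 : N x ≤ ∑ i, N ((x i) • b i) := by
    conv_lhs => rw [h1]
    exact N_sum hN _ _
  have h3 : ∑ i, N ((x i) • b i) ≤ ∑ i, ‖x‖ * N (b i) := by
    refine Finset.sum_le_sum fun i _ => ?_
    rw [hN.smul]
    exact mul_le_mul_of_nonneg_right (PiLp.norm_apply_le x i) (N_nonneg hN _)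
  rw [← Finset.mul_sum] at h3
  nlinarith [norm_nonneg x]

/-- local Lipschitz property of the exponential -/
theorem exp_lip (n : ℕ) : ∃ ρ > 0, ∃ K : ℝ, 1 ≤ K ∧ ∀ X X' : M n, ‖X‖ < ρ → ‖X'‖ < ρ →
    ‖NormedSpace.exp X - NormedSpace.exp X'‖ ≤ K * ‖X - X'‖ := by
  have h := hasStrictFDerivAt_exp_zero (𝕂 := ℂ) (𝔸 := M n)
  obtain ⟨K, s, hs, hK⟩ := h.exists_lipschitzOnWith
  obtain ⟨ρ, hρ, hb⟩ := Metric.mem_nhds_iff.1 hs
  refine ⟨ρ, hρ, max (K : ℝ) 1, le_max_right _ _, fun X X' hX hX' => ?_⟩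
  have h1 := hK.dist_le_mul X (hb (by simpa using hX)) X' (hb (by simpa using hX'))
  rw [dist_eq_norm, dist_eq_norm] at h1
  exact h1.trans (mul_le_mul_of_nonneg_right (le_max_left _ _) (norm_nonneg _))

theorem exp_neg_mul {n : ℕ} (X : M n) : NormedSpace.exp (-X) * NormedSpace.exp X = 1 := by
  let _ : NormedAlgebra ℚ (M n) := NormedAlgebra.restrictScalars ℚ ℂ (M n)
  rw [← NormedSpace.exp_add_of_commute (Commute.refl X).neg_left, neg_add_cancel,
    NormedSpace.exp_zero]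

theorem exp_mul_neg {n : ℕ} (X : M n) : NormedSpace.exp X * NormedSpace.exp (-X) = 1 := by
  let _ : NormedAlgebra ℚ (M n) := NormedAlgebra.restrictScalars ℚ ℂ (M n)
  rw [← NormedSpace.exp_add_of_commute (Commute.refl X).neg_right, add_neg_cancel,
    NormedSpace.exp_zero]

theorem norm_one_le {n : ℕ} : ‖(1 : M n)‖ ≤ 1 := ContinuousLinearMap.norm_id_le

/-- exponentials of elements of `k` are isometries -/
theorem exp_mem {n : ℕ} {N0 : E n → ℝ} {k : Submodule ℝ (M n)} (hk : LieOf N0 k) {Z : M n}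
    (hZ : Z ∈ k) : NormedSpace.exp Z ∈ PP N0 N0 := by
  have h := (hk.mem Z).1 hZ 1
  simpa using h

/-- basic data -/
structure Dat {n : ℕ} (N0 : E n → ℝ) (N : E (n + 1) → ℝ) (m k : Submodule ℝ (M n))
    (r C₂ B K : ℝ) : Prop where
  rpos : 0 < r
  C₂pos : 0 < C₂
  Bpos : 0 < B
  Kpos : 0 < K
  bd : ∀ X : M n, ‖X‖ < r → ‖NormedSpace.exp X‖ ≤ B
  lip : ∀ X X' : M n, ‖X‖ < r → ‖X'‖ < r →
    ‖NormedSpace.exp X - NormedSpace.exp X'‖ ≤ K * ‖X - X'‖
  key : ∀ J J' : E n →L[ℂ] E (n + 1), ∀ X ∈ m, ∀ X' ∈ m, ‖X‖ < r → ‖X'‖ < r →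
    J.comp (NormedSpace.exp X) ∈ PP N0 N → J'.comp (NormedSpace.exp X') ∈ PP N0 N →
    ‖X - X'‖ ≤ C₂ * ‖J - J'‖

theorem exists_dat (hCHART : ST_CHART) (hCOER : ST_COER) {n : ℕ} (N0 : E n → ℝ)
    (N : E (n + 1) → ℝ) (hS : Setup n N0 N) (hU : Unitary N0) (m k : Submodule ℝ (M n))
    (hk : LieOf N0 k) (hmk : IsCompl m k) : ∃ r C₂ B K, Dat N0 N m k r C₂ B K := by
  obtain ⟨ρ₁, hρ₁, C₁, hC₁, ha, hb⟩ := hCHART n m k hmk
  obtain ⟨ρ₂, hρ₂, c, hc, hcoer⟩ := hCOER n N0 hS.norm0 hU k hk m hmk.disjoint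
  obtain ⟨ρ₀, hρ₀, K, hK1, hK⟩ := exp_lip n
  obtain ⟨CN, hCN, hN⟩ := N_le hS.norm
  have hKpos : 0 < K := by linarith
  -- bound for exponentials
  set B : ℝ := 1 + K * ρ₀ with hB
  have hBpos : 0 < B := by positivity
  have hexp0 : NormedSpace.exp (0 : M n) = 1 := NormedSpace.exp_zero
  have hbd : ∀ X : M n, ‖X‖ < ρ₀ → ‖NormedSpace.exp X‖ ≤ B := by
    intro X hX
    have h1 := hK X 0 hX (by simpa using hρ₀)
    rw [hexp0, sub_zero] at h1
    have h2 : ‖NormedSpace.exp X‖ ≤ ‖NormedSpace.exp X - 1‖ + ‖(1 : M n)‖ := by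
      calc ‖NormedSpace.exp X‖ = ‖(NormedSpace.exp X - 1) + 1‖ := by rw [sub_add_cancel]
        _ ≤ _ := norm_add_le _ _
    have h3 : K * ‖X‖ ≤ K * ρ₀ := mul_le_mul_of_nonneg_left hX.le hKpos.le
    have h4 := norm_one_le (n := n)
    rw [hB]; linarith
  set ε₁ : ℝ := min ρ₁ (min (ρ₀ / C₁) (min (ρ₁ / C₁) (ρ₂ / C₁))) with hε₁
  have hε₁pos : 0 < ε₁ := by
    rw [hε₁]
    exact lt_min hρ₁ (lt_min (by positivity) (lt_min (by positivity) (by positivity)))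
  have he1 : ε₁ ≤ ρ₁ := min_le_left _ _
  have he2 : ε₁ ≤ ρ₀ / C₁ := (min_le_right _ _).trans (min_le_left _ _)
  have he3 : ε₁ ≤ ρ₁ / C₁ := (min_le_right _ _).trans ((min_le_right _ _).trans (min_le_left _ _))
  have he4 : ε₁ ≤ ρ₂ / C₁ := (min_le_right _ _).trans ((min_le_right _ _).trans (min_le_right _ _))
  have he2' : C₁ * ε₁ ≤ ρ₀ := by
    rw [le_div_iff₀ hC₁] at he2; linarith
  have he3' : C₁ * ε₁ ≤ ρ₁ := by
    rw [le_div_iff₀ hC₁] at he3; linarith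
  have he4' : C₁ * ε₁ ≤ ρ₂ := by
    rw [le_div_iff₀ hC₁] at he4; linarith
  set r : ℝ := min ρ₀ (min ρ₁ (ε₁ / (2 * B * K))) with hr
  have hrpos : 0 < r := by
    rw [hr]
    exact lt_min hρ₀ (lt_min hρ₁ (by positivity))
  have hr0 : r ≤ ρ₀ := min_le_left _ _
  have hr1 : r ≤ ρ₁ := (min_le_right _ _).trans (min_le_left _ _)
  have hr2 : r ≤ ε₁ / (2 * B * K) := (min_le_right _ _).trans (min_le_right _ _)
  have hr2' : 2 * B * K * r ≤ ε₁ := by
    rw [le_div_iff₀ (by positivity)] at hr2; linarith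
  refine ⟨r, C₁ * (B * (K * (CN * B * B / c)) * B), B, K, hrpos, by positivity, hBpos, hKpos,
    fun X hX => hbd X (hX.trans_le hr0), fun X X' hX hX' => hK X X' (hX.trans_le hr0)
      (hX'.trans_le hr0), ?_⟩
  intro J J' X hXm X' hX'm hX hX' hJ hJ'
  set Y : M n := NormedSpace.exp (-X') * NormedSpace.exp X with hY
  have hX'n : ‖-X'‖ < ρ₀ := by rw [norm_neg]; exact hX'.trans_le hr0
  have hY1 : ‖Y - 1‖ < ε₁ := by
    have h1 : Y - 1 = NormedSpace.exp (-X') * (NormedSpace.exp X - NormedSpace.exp X') := by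
      rw [hY, mul_sub, exp_neg_mul]
    rw [h1]
    have h2 := norm_mul_le (NormedSpace.exp (-X')) (NormedSpace.exp X - NormedSpace.exp X')
    have h3 := hbd (-X') hX'n
    have h4 := hK X X' (hX.trans_le hr0) (hX'.trans_le hr0)
    have h5 : ‖X - X'‖ < 2 * r := by
      have := norm_sub_le X X'
      linarith
    calc ‖NormedSpace.exp (-X') * (NormedSpace.exp X - NormedSpace.exp X')‖
        ≤ ‖NormedSpace.exp (-X')‖ * ‖NormedSpace.exp X - NormedSpace.exp X'‖ := h2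
      _ ≤ B * (K * ‖X - X'‖) := mul_le_mul h3 h4 (norm_nonneg _) hBpos.le
      _ < B * (K * (2 * r)) := by
        apply mul_lt_mul_of_pos_left _ hBpos
        exact mul_lt_mul_of_pos_left h5 hKpos
      _ = 2 * B * K * r := by ring
      _ ≤ ε₁ := hr2'
  obtain ⟨X'', hX''m, Z'', hZ''k, hX''n, hZ''n, hXZ⟩ := hb Y (hY1.trans_le he1)
  have hCY : C₁ * ‖Y - 1‖ < C₁ * ε₁ := mul_lt_mul_of_pos_left hY1 hC₁
  have hXe : NormedSpace.exp X' * Y = NormedSpace.exp X := by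
    rw [hY, ← mul_assoc, exp_mul_neg, one_mul]
  have hdiff : ∀ z : E n, |N0 (Y z) - N0 z| ≤ CN * (‖J - J'‖ * (B * ‖z‖)) := by
    intro z
    have h1 : N0 (Y z) = N (J' (NormedSpace.exp X z)) := by
      rw [← hJ' (Y z)]
      change N (J' (NormedSpace.exp X' (Y z))) = _
      rw [← hXe]; rfl
    have h2 : N0 z = N (J (NormedSpace.exp X z)) := (hJ z).symm
    rw [h1, h2]
    refine (N_sub_le hS.norm _ _).trans ?_
    refine (hN _).trans ?_
    refine mul_le_mul_of_nonneg_left ?_ hCN.le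
    have h3 : J' (NormedSpace.exp X z) - J (NormedSpace.exp X z)
        = -((J - J') (NormedSpace.exp X z)) := by
      rw [sub_apply, neg_sub]
    rw [h3, norm_neg]
    refine ((J - J').le_opNorm _).trans ?_
    refine mul_le_mul_of_nonneg_left ?_ (norm_nonneg _)
    refine ((NormedSpace.exp X).le_opNorm _).trans ?_
    exact mul_le_mul_of_nonneg_right (hbd X (hX.trans_le hr0)) (norm_nonneg _)
  obtain ⟨z, hz1, hz2⟩ := hcoer X'' hX''m (hX''n.trans_lt (hCY.trans_le he4'))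
  have hZneg : ‖-Z''‖ < ρ₀ := by
    rw [norm_neg]; exact hZ''n.trans_lt (hCY.trans_le he2')
  have hmem := exp_mem hk (k.neg_mem hZ''k)
  set w : E n := NormedSpace.exp (-Z'') z with hw
  have hYw : Y w = NormedSpace.exp X'' z := by
    rw [hw, ← hXZ]
    change NormedSpace.exp X'' ((NormedSpace.exp Z'' * NormedSpace.exp (-Z'')) z) = _
    rw [exp_mul_neg]; rfl
  have hN0w : N0 w = N0 z := hmem z
  have hwn : ‖w‖ ≤ B := by
    rw [hw]
    refine ((NormedSpace.exp (-Z'')).le_opNorm _).trans ?_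
    calc ‖NormedSpace.exp (-Z'')‖ * ‖z‖ ≤ B * 1 :=
          mul_le_mul (hbd _ hZneg) hz1 (norm_nonneg _) hBpos.le
      _ = B := mul_one _
  have hest : c * ‖X''‖ ≤ CN * B * B * ‖J - J'‖ := by
    have h1 := hdiff w
    rw [hYw, hN0w] at h1
    refine hz2.trans (h1.trans ?_)
    have h2 : ‖J - J'‖ * (B * ‖w‖) ≤ ‖J - J'‖ * (B * B) :=
      mul_le_mul_of_nonneg_left (mul_le_mul_of_nonneg_left hwn hBpos.le) (norm_nonneg _)
    calc CN * (‖J - J'‖ * (B * ‖w‖)) ≤ CN * (‖J - J'‖ * (B * B)) :=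
          mul_le_mul_of_nonneg_left h2 hCN.le
      _ = _ := by ring
  have hX''est : ‖X''‖ ≤ CN * B * B / c * ‖J - J'‖ := by
    rw [div_mul_eq_mul_div, le_div_iff₀ hc]
    linarith
  -- final comparison
  have hX1 := ha X hXm X' hX'm 0 k.zero_mem Z'' hZ''k (hX.trans_le hr1) (hX'.trans_le hr1)
    (by simpa using hρ₁) (hZ''n.trans_lt (hCY.trans_le he3'))
  have h6 : NormedSpace.exp X * NormedSpace.exp 0 - NormedSpace.exp X' * NormedSpace.exp Z''
      = NormedSpace.exp X' * ((NormedSpace.exp X'' - NormedSpace.exp 0) * NormedSpace.exp Z'') := by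
    rw [hexp0, mul_one, ← hXe, ← hXZ, sub_mul, one_mul, mul_sub]
  have h7 : ‖NormedSpace.exp X' * ((NormedSpace.exp X'' - NormedSpace.exp 0)
      * NormedSpace.exp Z'')‖ ≤ B * ((K * ‖X''‖) * B) := by
    refine (norm_mul_le _ _).trans ?_
    refine mul_le_mul (hbd _ (hX'.trans_le hr0)) ?_ (norm_nonneg _) hBpos.le
    refine (norm_mul_le _ _).trans ?_
    refine mul_le_mul ?_ (hbd _ (hZ''n.trans_lt (hCY.trans_le he2'))) (norm_nonneg _) (by positivity)
    have h8 := hK X'' 0 (hX''n.trans_lt (hCY.trans_le he2')) (by simpa using hρ₀)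
    rwa [sub_zero] at h8
  rw [h6] at hX1
  have h9 : ‖X - X'‖ ≤ C₁ * (B * ((K * ‖X''‖) * B)) := by
    have := norm_nonneg ((0 : M n) - Z'')
    have h10 := mul_le_mul_of_nonneg_left h7 hC₁.le
    linarith
  refine h9.trans ?_
  have h11 : C₁ * (B * ((K * ‖X''‖) * B)) ≤ C₁ * (B * ((K * (CN * B * B / c * ‖J - J'‖)) * B)) := by
    gcongr
  refine h11.trans (le_of_eq ?_)
  ring

open Classical in
/-- the retraction -/
noncomputable def R {n : ℕ} (N0 : E n → ℝ) (N : E (n + 1) → ℝ) (m : Submodule ℝ (M n)) (r : ℝ)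
    (J : E n →L[ℂ] E (n + 1)) : E n →L[ℂ] E (n + 1) :=
  if h : ∃ X : M n, X ∈ m ∧ ‖X‖ < r ∧ J.comp (NormedSpace.exp X) ∈ PP N0 N then
    J.comp (NormedSpace.exp h.choose) else J

theorem R_eq {n : ℕ} {N0 : E n → ℝ} {N : E (n + 1) → ℝ} {m k : Submodule ℝ (M n)}
    {r C₂ B K : ℝ} (hD : Dat N0 N m k r C₂ B K) {J : E n →L[ℂ] E (n + 1)} {X : M n}
    (hX : X ∈ m) (hXr : ‖X‖ < r) (hJ : J.comp (NormedSpace.exp X) ∈ PP N0 N) :
    R N0 N m r J = J.comp (NormedSpace.exp X) := by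
  have h : ∃ X : M n, X ∈ m ∧ ‖X‖ < r ∧ J.comp (NormedSpace.exp X) ∈ PP N0 N := ⟨X, hX, hXr, hJ⟩
  unfold R
  rw [dif_pos h]
  obtain ⟨h1, h2, h3⟩ := h.choose_spec
  have h4 := hD.key J J _ h1 X hX h2 hXr h3 hJ
  rw [sub_self, norm_zero, mul_zero] at h4
  have h5 : h.choose - X = 0 := norm_le_zero_iff.1 h4
  rw [sub_eq_zero.1 h5]

end RETR

open RETR in
/-- (2.2) -/
theorem st_RETR (_hGRP : ST_GRP) (hCHART : ST_CHART) (_hCS : ST_CS) (hCOER : ST_COER)
    (hNEAR : ST_NEAR) (hLIE : ST_LIE) (hLIFT : ST_LIFT) : ST_RETR := by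
  intro n N0 N hS hU
  obtain ⟨k, hk⟩ := hLIE n N0 hS.norm0 hU
  obtain ⟨m, hkm⟩ := Submodule.exists_isCompl k
  have hmk := hkm.symm
  obtain ⟨r, C₂, B, K, hD⟩ := exists_dat hCHART hCOER N0 N hS hU m k hk hmk
  obtain ⟨ρ₁, hρ₁, C₁, hC₁, -, hb⟩ := hCHART n m k hmk
  set η : ℝ := min ρ₁ (r / C₁) with hη
  have hηpos : 0 < η := lt_min hρ₁ (div_pos hD.rpos hC₁)
  have hη1 : η ≤ ρ₁ := min_le_left _ _
  have hη2 : C₁ * η ≤ r := by
    have : η ≤ r / C₁ := min_le_right _ _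
    rw [le_div_iff₀ hC₁] at this
    linarith
  obtain ⟨δ₀, hδ₀, hnear⟩ := hNEAR n N0 N hS η hηpos
  -- existence of the correction
  have hex : ∀ L ∈ PP N0 N, ∀ J : E n →L[ℂ] E (n + 1), ‖J - L‖ < δ₀ →
      ∃ X ∈ m, ‖X‖ < r ∧ J.comp (NormedSpace.exp X) ∈ PP N0 N := by
    intro L hL J hJL
    obtain ⟨Y, hY1, hY2⟩ := hnear L hL J hJL
    obtain ⟨X, hX, Z, hZ, hXn, -, hXZ⟩ := hb Y (hY1.trans_le hη1)
    refine ⟨X, hX, ?_, ?_⟩
    · refine hXn.trans_lt (lt_of_lt_of_le ?_ hη2)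
      exact mul_lt_mul_of_pos_left hY1 hC₁
    · intro z
      have h1 := hY2 (NormedSpace.exp (-Z) z)
      have h2 : N0 (NormedSpace.exp (-Z) z) = N0 z := exp_mem hk (k.neg_mem hZ) z
      rw [h2] at h1
      rw [← h1]
      change N (J (NormedSpace.exp X z)) = N (J (Y (NormedSpace.exp (-Z) z)))
      rw [← hXZ]
      change _ = N (J (NormedSpace.exp X ((NormedSpace.exp Z * NormedSpace.exp (-Z)) z)))
      rw [exp_mul_neg]; rfl
  obtain ⟨B₂, hB₂⟩ := (hLIFT n N0 N hS).1.isBounded.exists_norm_le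
  have hB₂' : ∀ L ∈ PP N0 N, ‖L‖ ≤ |B₂| := fun L hL => (hB₂ L hL).trans (le_abs_self _)
  refine ⟨min δ₀ 1, lt_min hδ₀ one_pos, B + (|B₂| + 1) * (K * C₂), ?_, R N0 N m r, ?_, ?_, ?_⟩
  · have := hD.Bpos
    have := hD.Kpos
    have := hD.C₂pos
    positivity
  · intro L hL
    have h1 : L.comp (NormedSpace.exp (0 : M n)) = L := by
      rw [NormedSpace.exp_zero]; rfl
    rw [R_eq hD m.zero_mem (by simpa using hD.rpos) (by rw [h1]; exact hL), h1]
  · intro L hL J hJ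
    obtain ⟨X, hX, hXr, hJX⟩ := hex L hL J (hJ.trans_le (min_le_left _ _))
    rw [R_eq hD hX hXr hJX]
    refine ⟨hJX, ?_⟩
    apply le_antisymm
    · rintro _ ⟨z, rfl⟩
      exact ⟨NormedSpace.exp X z, rfl⟩
    · rintro _ ⟨z, rfl⟩
      refine ⟨NormedSpace.exp (-X) z, ?_⟩
      change J ((NormedSpace.exp X * NormedSpace.exp (-X)) z) = J z
      rw [exp_mul_neg]; rfl
  · intro L hL L' hL' J J' hJ hJ'
    obtain ⟨X, hX, hXr, hJX⟩ := hex L hL J (hJ.trans_le (min_le_left _ _))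
    obtain ⟨X', hX', hXr', hJX'⟩ := hex L' hL' J' (hJ'.trans_le (min_le_left _ _))
    rw [R_eq hD hX hXr hJX, R_eq hD hX' hXr' hJX']
    have h1 : J.comp (NormedSpace.exp X) - J'.comp (NormedSpace.exp X')
        = (J - J').comp (NormedSpace.exp X)
          + J'.comp (NormedSpace.exp X - NormedSpace.exp X') := by
      ext z
      simp
    have h2 : ‖J'‖ ≤ |B₂| + 1 := by
      have h3 : ‖J'‖ ≤ ‖J' - L'‖ + ‖L'‖ := by
        calc ‖J'‖ = ‖(J' - L') + L'‖ := by rw [sub_add_cancel]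
          _ ≤ _ := norm_add_le _ _
      have h4 := hB₂' L' hL'
      have h5 : ‖J' - L'‖ < 1 := hJ'.trans_le (min_le_right _ _)
      linarith
    rw [h1]
    have h6 := hD.key J J' X hX X' hX' hXr hXr' hJX hJX'
    have h7 := hD.lip X X' hXr hXr'
    have hKpos := hD.Kpos
    calc ‖(J - J').comp (NormedSpace.exp X) + J'.comp (NormedSpace.exp X - NormedSpace.exp X')‖
        ≤ ‖(J - J').comp (NormedSpace.exp X)‖
          + ‖J'.comp (NormedSpace.exp X - NormedSpace.exp X')‖ := norm_add_le _ _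
      _ ≤ ‖J - J'‖ * ‖NormedSpace.exp X‖ + ‖J'‖ * ‖NormedSpace.exp X - NormedSpace.exp X'‖ :=
          add_le_add (ContinuousLinearMap.opNorm_comp_le _ _)
            (ContinuousLinearMap.opNorm_comp_le _ _)
      _ ≤ ‖J - J'‖ * B + (|B₂| + 1) * (K * (C₂ * ‖J - J'‖)) := by
          refine add_le_add (mul_le_mul_of_nonneg_left (hD.bd X hXr) (norm_nonneg _)) ?_
          refine mul_le_mul h2 ?_ (norm_nonneg _) (by positivity)
          exact h7.trans (mul_le_mul_of_nonneg_left h6 hKpos.le)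
      _ = (B + (|B₂| + 1) * (K * C₂)) * ‖J - J'‖ := by ring

end Pool.Agent.Helper83.CB
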